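import Mathlib
import Pool.Agent.Helper418.FE7

/-!
Exact norms of `I - K_n` (Fejér) and `I - P_r` (Poisson) on `L^p(𝕋)`, `1 < p < ∞`.
The definitions are in `Pool/Agent/Helper418/FEDefs.lean`, the proof is in `FE1.lean` to `FE7.lean`.

Idea of the proof. Put `D = C_p^p`, `C_p` the closed form. A two-point Hölder inequality gives, for every
real `m`, a slope `s` with `|x - m|^p ≤ D |x|^p + s (x - m)` for all real `x`. For real `f` let
`T_f = ∫ f(y) u_y u_y^* dy` be the Toeplitz matrix (`u_y = (e^{ijy})_{0 ≤ j ≤ n}`), with eigenvalues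
`λ_i` and orthonormal eigenvectors `e_i`, and `w_i(x) = |⟨e_i, u_x⟩|² / (n+1)`. Then `w_i ≥ 0`,
`∑ w_i = 1`, `K_n * f = ∑ λ_i w_i` and `∫ w_i (f - λ_i) = 0`. Jensen's inequality and the line
inequality give `‖f - K_n * f‖_p^p ≤ D ‖f‖_p^p`. Complex `f` follow by averaging over rotations,
and `P_r = (1-r)² ∑ (n+1) r^n K_n` gives the Poisson case. The lower bound uses two-valued
functions composed with `x ↦ N x`.
-/

namespace Pool.Agent.Results.MP_c466d4_an.ExactNorms

open Pool.Agent.Helper418.FE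

/-- For every `1 < p < ∞`, the norms on `L^p(𝕋)` of `I - K_n` (all `n ≥ 0`) and of `I - P_r`
(all `0 ≤ r < 1`) are all equal to
`C_p = max_{0 ≤ α ≤ 1} (α^{p-1} + (1-α)^{p-1})^{1/p} (α^{1/(p-1)} + (1-α)^{1/(p-1)})^{1-1/p}`. -/
theorem result (p : ℝ) (hp : 1 < p) :
    (∀ n : ℕ, IsNormIdSubConv (fejer n) p (C p)) ∧
    (∀ r : ℝ, 0 ≤ r → r < 1 → IsNormIdSubConv (poisson r) p (C p)) :=
  main p hp

end Pool.Agent.Results.MP_c466d4_an.ExactNorms
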